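import Mathlib
import Pool.Agent.Work.MP_7e5e3f_co.Defs
import Pool.Agent.Work.MP_7e5e3f_co.Main

set_option autoImplicit false

namespace Pool.Agent.Results.MP_7e5e3f_co.CoronaKer

open Pool.Agent.Work.MP_7e5e3f_co

/-- Q1, affirmative: for every finite graph `G`, `|corona G| + |ker G| ≤ 2 α(G) + k`, where `k` is
the number of odd cycles of `G`, counted by their edge sets. -/
theorem result : ∀ (V : Type*) [Finite V] (G : SimpleGraph V),
    (corona G).ncard + (ker G).ncard ≤ 2 * G.indepNum + (oddCycles G).ncard := by
  intro V _ G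
  exact main G

end Pool.Agent.Results.MP_7e5e3f_co.CoronaKer
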