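import Mathlib
import Pool.Agent.Work.MP_7e5e3f_co.Defs
import Pool.Agent.Work.MP_7e5e3f_co.KFour

set_option autoImplicit false

namespace Pool.Agent.Results.MP_7e5e3f_co.SharperFails

open Pool.Agent.Work.MP_7e5e3f_co

/-- Q2, negative for both (a) and (b): the inequality fails when the number of odd cycles is
replaced by (a) the number of odd cycles of `G[D(G)]`, or by (b) the largest number of pairwise
vertex-disjoint odd cycles. -/
theorem result :
    (¬ ∀ (V : Type) [Finite V] (G : SimpleGraph V),
      (corona G).ncard + (ker G).ncard ≤
        2 * G.indepNum + (oddCycles (G.induce (missed G))).ncard) ∧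
    (¬ ∀ (V : Type) [Finite V] (G : SimpleGraph V),
      (corona G).ncard + (ker G).ncard ≤ 2 * G.indepNum + maxDisjointOddCycles G) := by
  constructor
  · intro h
    have h1 := h (Fin 4) KF
    rw [KF_corona_card, KF_a] at h1
    have := KF_indepNum
    omega
  · intro h
    have h1 := h (Fin 4) KF
    rw [KF_corona_card] at h1
    have h2 := KF_indepNum
    have h3 := KF_b
    omega

end Pool.Agent.Results.MP_7e5e3f_co.SharperFails
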